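import Pool.Agent.Run7.h892.CG.Stm

set_option autoImplicit false

namespace Run7.h803.CG

open NumberField nonZeroDivisors Pool.Agent.Run7.h892.CG

theorem t_AVO : S_AVO := by
  intro F _ _ c N hN
  by_cases htop : N = ⊤
  · subst htop
    obtain ⟨⟨I, hI⟩, hc⟩ := ClassGroup.mk0_surjective c
    refine ⟨I, nonZeroDivisors.ne_zero hI, hc, ?_⟩
    rw [Ideal.isCoprime_iff_sup_eq]
    exact sup_top_eq I
  obtain ⟨⟨B, hB⟩, hBc⟩ := ClassGroup.mk0_surjective c⁻¹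
  have hB0 : B ≠ 0 := nonZeroDivisors.ne_zero hB
  obtain ⟨a, ha⟩ := IsDedekindDomain.exists_sup_span_eq (I := B * N) (J := B)
    Ideal.mul_le_left (mul_ne_zero hB0 hN)
  have hle : Ideal.span {a} ≤ B := le_sup_right.trans_eq ha
  obtain ⟨I, hI⟩ := Ideal.dvd_iff_le.2 hle
  have hcop : N ⊔ I = ⊤ := by
    have h1 : B * (N ⊔ I) = B * ⊤ := by
      rw [Ideal.mul_sup, ← hI, ha, Ideal.mul_top]
    exact mul_left_cancel₀ hB0 h1
  have hI0 : I ≠ ⊥ := by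
    rintro rfl
    rw [sup_bot_eq] at hcop
    exact htop hcop
  refine ⟨I, hI0, ?_, ?_⟩
  · have h1 : ClassGroup.mk0 (⟨B, hB⟩ * ⟨I, mem_nonZeroDivisors_of_ne_zero hI0⟩) = 1 := by
      rw [ClassGroup.mk0_eq_one_iff]
      change (B * I).IsPrincipal
      rw [← hI]
      exact ⟨⟨a, rfl⟩⟩
    rw [map_mul, hBc, inv_mul_eq_one] at h1
    exact h1.symm
  · rw [Ideal.isCoprime_iff_sup_eq, sup_comm]
    exact hcop

end Run7.h803.CG
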