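import Pool.Agent.Run7.h892.CG.Stm

set_option autoImplicit false

namespace Run7.h803.CG

open NumberField nonZeroDivisors Pool.Agent.Run7.h892.CG Polynomial

theorem t_FLD : S_FLD := by
  intro F _ _ ℓ hℓ δ hδ
  have hirr : Irreducible (X ^ ℓ - C (δ : F)) := X_pow_sub_C_irreducible_of_prime hℓ hδ
  have : Fact (Irreducible (X ^ ℓ - C (δ : F))) := ⟨hirr⟩
  have hne : (X ^ ℓ - C (δ : F)) ≠ 0 := hirr.ne_zero
  have hfin : Module.Finite F (AdjoinRoot (X ^ ℓ - C (δ : F))) :=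
    (AdjoinRoot.powerBasis hne).finite
  have hnf : NumberField (AdjoinRoot (X ^ ℓ - C (δ : F))) :=
    NumberField.of_module_finite F _
  have hrank : Module.finrank F (AdjoinRoot (X ^ ℓ - C (δ : F))) = ℓ := by
    rw [(AdjoinRoot.powerBasis hne).finrank, AdjoinRoot.powerBasis_dim,
      natDegree_X_pow_sub_C]
  refine ⟨AdjoinRoot (X ^ ℓ - C (δ : F)), inferInstance, hnf, inferInstance, hrank, ?_, ?_⟩
  · have := Module.finrank_mul_finrank ℚ F (AdjoinRoot (X ^ ℓ - C (δ : F)))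
    rw [hrank] at this
    rw [← this, mul_comm]
  · have hroot : (AdjoinRoot.root (X ^ ℓ - C (δ : F))) ^ ℓ =
        algebraMap F (AdjoinRoot (X ^ ℓ - C (δ : F))) (δ : F) := by
      have h := AdjoinRoot.eval₂_root (X ^ ℓ - C (δ : F))
      rw [eval₂_sub, eval₂_X_pow, eval₂_C, sub_eq_zero] at h
      exact h
    have hint : IsIntegral ℤ (AdjoinRoot.root (X ^ ℓ - C (δ : F))) := by
      refine IsIntegral.of_pow hℓ.pos ?_
      rw [hroot]
      exact (RingOfIntegers.isIntegral_coe δ).map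
        ((Algebra.ofId F (AdjoinRoot (X ^ ℓ - C (δ : F)))).restrictScalars ℤ)
    obtain ⟨θ, hθ⟩ : ∃ θ : 𝓞 (AdjoinRoot (X ^ ℓ - C (δ : F))),
        algebraMap (𝓞 (AdjoinRoot (X ^ ℓ - C (δ : F)))) (AdjoinRoot (X ^ ℓ - C (δ : F))) θ =
          AdjoinRoot.root (X ^ ℓ - C (δ : F)) := ⟨⟨_, hint⟩, rfl⟩
    refine ⟨θ, ?_⟩
    apply RingOfIntegers.coe_injective
    rw [map_pow, hθ, hroot]
    rfl

end Run7.h803.CG
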