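import Pool.Agent.Run7.h892.CG.Stm

set_option autoImplicit false

namespace Run7.h803.CG

open NumberField nonZeroDivisors Pool.Agent.Run7.h892.CG

theorem t_POW : S_POW := by
  intro K _ _ ℓ θ I J _ h hc
  classical
  rw [← Ideal.span_singleton_pow] at h
  obtain ⟨d, hd⟩ := exists_eq_pow_of_mul_eq_pow_of_coprime hc h.symm
  exact ⟨d, hd.symm⟩

end Run7.h803.CG
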